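import Mathlib

/-!
# The number of jumps needed to enlarge a grasshopper configuration is unbounded

Three pieces `0, 1, x` on the line. For a fixed number of jumps only finitely many `x` can be
enlarged (each of them satisfies one of finitely many nonzero quadratic equations), but
`x = √(k² + k) - k` gives an enlargeable configuration for every `k ≥ 1`.
-/

set_option autoImplicit false

namespace Pool.Agent.Results.MP_59f6dc_co.Unbounded

section Defs

variable {G : Type*} [AddCommGroup G] {N : ℕ}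

/-- `Q` arises from `P` by one legal jump: piece `i` moves to its mirror image through `P j`. -/
def Jump (P Q : Fin N → G) : Prop :=
  ∃ i j : Fin N, i ≠ j ∧ Q = Function.update P i (2 • P j - P i)

/-- `Q` arises from `P` by exactly `k` legal jumps. -/
def ReachIn : ℕ → (Fin N → G) → (Fin N → G) → Prop
  | 0, P, Q => Q = P
  | k + 1, P, Q => ∃ R, ReachIn k P R ∧ Jump R Q

end Defs

/-- The configuration `Q` is similar to `P` but larger (pieces are not distinguished). -/
def SimilarLarger {N d : ℕ} (P Q : Fin N → EuclideanSpace ℝ (Fin d)) : Prop :=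
  ∃ (c : ℝ) (R : EuclideanSpace ℝ (Fin d) ≃ₗᵢ[ℝ] EuclideanSpace ℝ (Fin d))
    (t : EuclideanSpace ℝ (Fin d)) (σ : Equiv.Perm (Fin N)),
    1 < c ∧ ∀ i, Q (σ i) = c • R (P i) + t

/-- `P` can be enlarged by `k` jumps. -/
def EnlargeIn {N d : ℕ} (k : ℕ) (P : Fin N → EuclideanSpace ℝ (Fin d)) : Prop :=
  ∃ Q, ReachIn k P Q ∧ SimilarLarger P Q

/-- `P` is enlargeable. -/
def Enlargeable {N d : ℕ} (P : Fin N → EuclideanSpace ℝ (Fin d)) : Prop :=
  ∃ k, EnlargeIn k P

/-- The least number of jumps enlarging `P`. -/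
noncomputable def J {N d : ℕ} (P : Fin N → EuclideanSpace ℝ (Fin d)) : ℕ :=
  sInf {k | EnlargeIn k P}

section General

variable {G H : Type*} [AddCommGroup G] [AddCommGroup H] {N : ℕ}

theorem ReachIn.trans {a b : ℕ} {P Q R : Fin N → G} (h : ReachIn a P Q) (h' : ReachIn b Q R) :
    ReachIn (a + b) P R := by
  induction b generalizing R with
  | zero => cases h'; exact h
  | succ b ih =>
    obtain ⟨S, h1, h2⟩ := h'
    exact ⟨S, ih h1, h2⟩

theorem Jump.reachIn {P Q : Fin N → G} (h : Jump P Q) : ReachIn 1 P Q := ⟨P, rfl, h⟩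

/-- A configuration reachable from an image lifts. -/
theorem ReachIn.lift (φ : G →+ H) {k : ℕ} {P : Fin N → G} {Q : Fin N → H}
    (h : ReachIn k (fun i => φ (P i)) Q) : ∃ A, ReachIn k P A ∧ Q = fun i => φ (A i) := by
  induction k generalizing Q with
  | zero => exact ⟨P, rfl, h⟩
  | succ k ih =>
    obtain ⟨R, h1, i, j, hij, h2⟩ := h
    obtain ⟨A, h3, rfl⟩ := ih h1
    refine ⟨Function.update A i (2 • A j - A i), ⟨A, h3, i, j, hij, rfl⟩, ?_⟩
    rw [h2]
    funext l
    by_cases hl : l = i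
    · subst hl
      simp
    · simp [Function.update_of_ne hl]

theorem finite_reachIn (k : ℕ) (P : Fin N → G) : {Q | ReachIn k P Q}.Finite := by
  induction k with
  | zero =>
    refine (Set.finite_singleton P).subset fun Q hQ => ?_
    exact hQ
  | succ k ih =>
    have h1 : {Q | ReachIn (k + 1) P Q} ⊆ ⋃ R ∈ {Q | ReachIn k P Q},
        Set.range fun p : Fin N × Fin N => Function.update R p.1 (2 • R p.2 - R p.1) := by
      rintro Q ⟨R, h2, i, j, -, rfl⟩
      simp only [Set.mem_iUnion]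
      exact ⟨R, h2, ⟨(i, j), rfl⟩⟩
    exact (ih.biUnion fun R _ => Set.finite_range _).subset h1

end General

/-- The determinant of the differences of three points of `ℤ²`. -/
def det (A : Fin 3 → ℤ × ℤ) (i j k : Fin 3) : ℤ :=
  ((A j).1 - (A i).1) * ((A k).2 - (A i).2) - ((A j).2 - (A i).2) * ((A k).1 - (A i).1)

theorem det_perm (A : Fin 3 → ℤ × ℤ) (i j k : Fin 3) (hij : i ≠ j) (hik : i ≠ k) (hjk : j ≠ k) :
    det A i j k ^ 2 = det A 0 1 2 ^ 2 := by
  fin_cases i <;> fin_cases j <;> fin_cases k <;>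
    first
    | exact absurd rfl hij
    | exact absurd rfl hik
    | exact absurd rfl hjk
    | (simp only [det, Fin.mk_zero, Fin.mk_one, Fin.reduceFinMk]; try ring)

theorem det_jump {A B : Fin 3 → ℤ × ℤ} (h : Jump A B) : det B 0 1 2 ^ 2 = det A 0 1 2 ^ 2 := by
  obtain ⟨i, j, hij, rfl⟩ := h
  fin_cases i <;> fin_cases j <;>
    first
    | exact absurd rfl hij
    | (simp [det]; ring)

/-- The starting integer configuration. -/
def A₀ : Fin 3 → ℤ × ℤ := ![(0, 0), (1, 0), (0, 1)]

theorem det_reachIn {k : ℕ} {A : Fin 3 → ℤ × ℤ} (h : ReachIn k A₀ A) : det A 0 1 2 ^ 2 = 1 := by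
  induction k generalizing A with
  | zero =>
    rw [show A = A₀ from h]
    decide
  | succ k ih =>
    obtain ⟨R, h1, h2⟩ := h
    rw [det_jump h2, ih h1]

/-- The unit vector of the line. -/
noncomputable def e : EuclideanSpace ℝ (Fin 1) := EuclideanSpace.single 0 1

theorem eq_smul_e (v : EuclideanSpace ℝ (Fin 1)) : v = v 0 • e := by
  ext i
  fin_cases i
  simp [e]

theorem smul_e_zero (r : ℝ) : (r • e) 0 = r := by simp [e]

/-- The evaluation `(α, β) ↦ α + β x`. -/
noncomputable def ev (x : ℝ) : ℤ × ℤ →+ EuclideanSpace ℝ (Fin 1) where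
  toFun a := ((a.1 : ℝ) + a.2 * x) • e
  map_zero' := by simp
  map_add' a b := by
    rw [← add_smul, Prod.fst_add, Prod.snd_add]
    push_cast
    congr 1
    ring

theorem ev_zero (x : ℝ) (a : ℤ × ℤ) : ev x a 0 = (a.1 : ℝ) + a.2 * x := by
  change (((a.1 : ℝ) + a.2 * x) • e) 0 = _
  rw [smul_e_zero]

/-- The configuration `0, 1, x`. -/
noncomputable def conf (x : ℝ) : Fin 3 → EuclideanSpace ℝ (Fin 1) := fun i => ev x (A₀ i)

/-- Finitely many `x` for each word and permutation. -/
theorem finite_roots {a b c d : ℤ} (h : (a * d - b * c) ^ 2 = 1) :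
    {x : ℝ | ∃ μ : ℝ, 1 < μ ^ 2 ∧ (a : ℝ) + b * x = μ ∧ (c : ℝ) + d * x = μ * x}.Finite := by
  by_cases h0 : b = 0 ∧ a = d ∧ c = 0
  · obtain ⟨rfl, rfl, rfl⟩ := h0
    refine Set.finite_empty.subset ?_
    rintro x ⟨μ, h1, h2, -⟩
    exfalso
    have h3 : ((a : ℝ) * a) ^ 2 = 1 := by
      have : (a * a) ^ 2 = 1 := by linarith [h]
      exact_mod_cast this
    have h4 : μ = a := by rw [← h2]; simp
    rw [← h4] at h3
    nlinarith
  · let p : Polynomial ℝ := Polynomial.C (b : ℝ) * Polynomial.X ^ 2 +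
      Polynomial.C ((a : ℝ) - d) * Polynomial.X + Polynomial.C (-(c : ℝ))
    have hp : p ≠ 0 := by
      intro hp
      apply h0
      have h1 : Polynomial.eval 1 p = 0 := by rw [hp, Polynomial.eval_zero]
      have h2 : Polynomial.eval (-1) p = 0 := by rw [hp, Polynomial.eval_zero]
      have h3 : Polynomial.eval 0 p = 0 := by rw [hp, Polynomial.eval_zero]
      simp only [p, Polynomial.eval_add, Polynomial.eval_mul, Polynomial.eval_C, Polynomial.eval_pow,
        Polynomial.eval_X] at h1 h2 h3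
      have h4 : (c : ℝ) = 0 := by linarith
      have h5 : (b : ℝ) = 0 := by linarith
      have h6 : (a : ℝ) = d := by linarith
      exact ⟨by exact_mod_cast h5, by exact_mod_cast h6, by exact_mod_cast h4⟩
    refine (p.rootSet_finite ℝ).subset ?_
    rintro x ⟨μ, h1, h2, h3⟩
    rw [Polynomial.mem_rootSet]
    refine ⟨hp, ?_⟩
    simp only [p, map_add, map_mul, Polynomial.aeval_X, Polynomial.aeval_C, map_pow]
    simp
    rw [← h2] at h3
    linarith

/-- A similarity of the line onto another configuration, in coordinates. -/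
theorem similar_coord {P Q : Fin 3 → EuclideanSpace ℝ (Fin 1)} (h : SimilarLarger P Q) :
    ∃ (μ : ℝ) (σ : Equiv.Perm (Fin 3)), 1 < μ ^ 2 ∧
      ∀ i j, Q (σ i) 0 - Q (σ j) 0 = μ * (P i 0 - P j 0) := by
  obtain ⟨c, R, t, σ, hc, h⟩ := h
  have hR : (R e 0) ^ 2 = 1 := by
    have h1 : ‖R e‖ = 1 := by
      rw [R.norm_map]
      simp [e]
    rw [eq_smul_e (R e), norm_smul] at h1
    have h2 : ‖e‖ = 1 := by simp [e]
    rw [h2, mul_one, Real.norm_eq_abs] at h1
    rw [← sq_abs, h1]
    norm_num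
  refine ⟨c * R e 0, σ, ?_, fun i j => ?_⟩
  · rw [mul_pow, hR]
    nlinarith
  · have h2 : ∀ i, Q (σ i) 0 = c * (P i 0 * R e 0) + t 0 := by
      intro i
      rw [h i]
      have h3 : R (P i) = P i 0 • R e := by
        conv_lhs => rw [eq_smul_e (P i)]
        rw [map_smul]
      rw [h3]
      simp
    rw [h2, h2]
    ring

/-- Only finitely many configurations `0, 1, x` can be enlarged by `k` jumps. -/
theorem finite_enlarge (k : ℕ) : {x : ℝ | EnlargeIn k (conf x)}.Finite := by
  have h1 : {x : ℝ | EnlargeIn k (conf x)} ⊆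
      ⋃ A ∈ {A | ReachIn k A₀ A}, ⋃ σ : Equiv.Perm (Fin 3),
        {x : ℝ | ∃ μ : ℝ, 1 < μ ^ 2 ∧
          (((A (σ 1)).1 - (A (σ 0)).1 : ℤ) : ℝ) + (((A (σ 1)).2 - (A (σ 0)).2 : ℤ) : ℝ) * x = μ ∧
          (((A (σ 2)).1 - (A (σ 0)).1 : ℤ) : ℝ) + (((A (σ 2)).2 - (A (σ 0)).2 : ℤ) : ℝ) * x =
            μ * x} := by
    rintro x ⟨Q, hQ, hs⟩
    obtain ⟨A, hA, rfl⟩ := hQ.lift (ev x)
    obtain ⟨μ, σ, hμ, h2⟩ := similar_coord hs
    simp only [Set.mem_iUnion]
    refine ⟨A, hA, σ, μ, hμ, ?_, ?_⟩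
    · have h3 := h2 1 0
      simp only [conf, ev_zero] at h3
      simp [A₀] at h3
      push_cast
      linarith
    · have h3 := h2 2 0
      simp only [conf, ev_zero] at h3
      simp [A₀] at h3
      push_cast
      linarith
  refine Set.Finite.subset ?_ h1
  refine (finite_reachIn k A₀).biUnion fun A hA => ?_
  refine Set.finite_iUnion fun σ => finite_roots ?_
  have h2 := det_perm A (σ 0) (σ 1) (σ 2) (by simp) (by simp) (by simp)
  rw [det_reachIn hA] at h2
  rw [← h2, det]

/-- Moving the third piece by twice the distance of the first two. -/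
theorem move_third {G : Type*} [AddCommGroup G] (a b c : G) :
    ReachIn 2 ![a, b, c] ![a, b, c + 2 • (b - a)] := by
  refine ⟨![a, b, 2 • a - c], ⟨![a, b, c], rfl, 2, 0, by decide, ?_⟩, 2, 1, by decide, ?_⟩
  · funext i
    fin_cases i <;> simp
  · funext i
    fin_cases i <;> simp
    abel

theorem move_second {G : Type*} [AddCommGroup G] (a b c : G) :
    ReachIn 2 ![a, b, c] ![a, b + 2 • (c - a), c] := by
  refine ⟨![a, 2 • a - b, c], ⟨![a, b, c], rfl, 1, 0, by decide, ?_⟩, 1, 2, by decide, ?_⟩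
  · funext i
    fin_cases i <;> simp
  · funext i
    fin_cases i <;> simp
    abel

theorem move_many {G : Type*} [AddCommGroup G] (a b c : G) (k : ℕ) :
    ReachIn (2 * k) ![a, b, c] ![a, b, c + (2 * k) • (b - a)] := by
  induction k with
  | zero => simp [ReachIn]
  | succ k ih =>
    have h := ih.trans (move_third a b (c + (2 * k) • (b - a)))
    have e : c + (2 * k) • (b - a) + 2 • (b - a) = c + (2 * (k + 1)) • (b - a) := by
      rw [add_assoc, ← add_smul]
      congr 1
    rw [e] at h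
    exact h

theorem conf_eq (x : ℝ) : conf x = ![(0 : ℝ) • e, (1 : ℝ) • e, x • e] := by
  funext i
  fin_cases i <;> simp [conf, A₀, ev]

/-- If `x ^ 2 + 2 k x = k` with `x > 0` then `0, 1, x` is enlargeable. -/
theorem enlargeable (k : ℕ) (x : ℝ) (hx : 0 < x) (h : x ^ 2 + 2 * k * x = k) :
    Enlargeable (conf x) := by
  have h1 := (move_many ((0 : ℝ) • e) ((1 : ℝ) • e) (x • e) k).trans
    (move_second ((0 : ℝ) • e) ((1 : ℝ) • e) (x • e + (2 * k) • ((1 : ℝ) • e - (0 : ℝ) • e)))
  refine ⟨_, _, by rw [conf_eq]; exact h1, ?_⟩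
  refine ⟨1 + 2 * (x + 2 * k), LinearIsometryEquiv.refl ℝ _, 0, Equiv.refl _, ?_, ?_⟩
  · have : (0 : ℝ) ≤ k := Nat.cast_nonneg _
    linarith
  · intro i
    rw [conf_eq]
    fin_cases i
    · simp
    · simp only [zero_smul, sub_zero, one_smul, Fin.mk_one, Equiv.refl_apply, Matrix.cons_val_one,
        Matrix.cons_val_zero, LinearIsometryEquiv.coe_refl, id_eq, add_zero]
      rw [show (1 + 2 * (x + 2 * k)) • e = e + (2 : ℕ) • (x • e + (2 * k) • e) by
        module]
    · simp only [zero_smul, sub_zero, one_smul, Equiv.refl_apply, LinearIsometryEquiv.coe_refl,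
        id_eq, add_zero]
      simp only [Fin.reduceFinMk, Matrix.cons_val]
      rw [smul_smul, show (1 + 2 * (x + 2 * k)) * x = x + 2 * k by nlinarith]
      module

/-- The enlargeable configurations. -/
theorem exists_root (k : ℕ) : ∃ x : ℝ, 0 < x ∧ x ^ 2 + 2 * ((k + 1 : ℕ) : ℝ) * x = ((k + 1 : ℕ) : ℝ) := by
  set m : ℝ := ((k + 1 : ℕ) : ℝ) with hm
  have hm' : 0 < m := by rw [hm]; positivity
  have h1 : Real.sqrt (m ^ 2 + m) ^ 2 = m ^ 2 + m := Real.sq_sqrt (by positivity)
  refine ⟨Real.sqrt (m ^ 2 + m) - m, ?_, ?_⟩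
  · have : m < Real.sqrt (m ^ 2 + m) := Real.lt_sqrt_of_sq_lt (by linarith)
    linarith
  · nlinarith

/-- **The number of jumps needed to enlarge three pieces on a line is unbounded.** -/
theorem result : ∀ L : ℕ, ∃ P : Fin 3 → EuclideanSpace ℝ (Fin 1), Enlargeable P ∧ L < J P := by
  intro L
  choose x hx hx' using exists_root
  have hinj : Function.Injective x := by
    intro a b hab
    by_contra hne
    have h1 := hx' a
    have h2 := hx' b
    rw [hab] at h1
    have h3 : ((a : ℝ) - b) * (2 * x b - 1) = 0 := by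
      push_cast at h1 h2
      linarith
    rcases mul_eq_zero.1 h3 with h4 | h4
    · apply hne
      have : (a : ℝ) = b := by linarith
      exact_mod_cast this
    · have h5 : x b = 1 / 2 := by linarith
      rw [h5] at h2
      push_cast at h2
      linarith
  have hfin : (⋃ k ∈ {k : ℕ | k ≤ L}, {x : ℝ | EnlargeIn k (conf x)}).Finite :=
    (Set.finite_le_nat L).biUnion fun k _ => finite_enlarge k
  obtain ⟨y, ⟨k, rfl⟩, hk⟩ := (Set.infinite_range_of_injective hinj).exists_notMem_finite hfin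
  have hen : Enlargeable (conf (x k)) := enlargeable (k + 1) (x k) (hx k) (hx' k)
  refine ⟨conf (x k), hen, ?_⟩
  by_contra hJ
  apply hk
  simp only [Set.mem_iUnion]
  exact ⟨J (conf (x k)), not_lt.1 hJ, Nat.sInf_mem hen⟩

end Pool.Agent.Results.MP_59f6dc_co.Unbounded
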